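import Pool.Agent.P.MP_f97e06_gt.Main

open scoped Manifold ContDiff

/-- On every closed connected smooth Riemannian manifold, every degenerate eigenvalue of the
Laplace-Beltrami operator has multiplicity at least eight (so never exactly seven). -/
theorem Pool.Agent.Results.MP_f97e06_gt.DegenerateGeEight.result
    (n : ℕ) (M : Type*) [TopologicalSpace M] [T2Space M] [CompactSpace M] [ConnectedSpace M]
    [ChartedSpace (EuclideanSpace ℝ (Fin n)) M] [IsManifold (𝓡 n) ∞ M]
    (g : Pool.Agent.P.MP_f97e06_gt.RiemMetric (EuclideanSpace ℝ (Fin n)) M) (lam : ℝ)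
    (h : Pool.Agent.P.MP_f97e06_gt.IsDegenerateEigenvalue g lam) :
    8 ≤ Pool.Agent.P.MP_f97e06_gt.eigenMultiplicity g lam :=
  Pool.Agent.P.MP_f97e06_gt.eight_le_multiplicity g lam h
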